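import Pool.Agent.N303.LS.Stm

/-!
# Project LS (helper303), MP_ee74d2_an: the propagators solve the acoustic system (helper362)
-/

set_option autoImplicit false

namespace Pool.Agent.N362.LS

open MeasureTheory Pool.Agent.N303.LS
open scoped ENNReal FourierTransform RealInnerProductSpace SchwartzMap

variable {d : ℕ}

/-- symbols of first order growth -/
structure Sy (s : ℝ → E d → ℂ) : Prop where
  meas : ∀ t, Measurable (s t)
  cont : ∀ ξ, Continuous fun t => s t ξ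
  bd : ∀ t ξ, ‖s t ξ‖ ≤ 1 + 2 * Real.pi * ‖ξ‖

/-- the exponential factor -/
noncomputable def ex (x ξ : E d) : ℂ :=
  Complex.exp (((2 * Real.pi * ⟪x, ξ⟫ : ℝ) : ℂ) * Complex.I)

lemma norm_ex (x ξ : E d) : ‖ex x ξ‖ = 1 := Complex.norm_exp_ofReal_mul_I _

lemma cont_ex : Continuous fun p : E d × E d => ex p.1 p.2 := by
  unfold ex
  fun_prop

/-- the dominating function -/
noncomputable def dom (g : 𝓢(E d, ℂ)) (ξ : E d) : ℝ :=
  (1 + 2 * Real.pi * ‖ξ‖) * ‖𝓕 (g : E d → ℂ) ξ‖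

lemma cont_G (g : 𝓢(E d, ℂ)) : Continuous (𝓕 (g : E d → ℂ)) := by
  have h := (𝓕 g : 𝓢(E d, ℂ)).continuous
  rwa [SchwartzMap.fourier_coe] at h

lemma int_dom (g : 𝓢(E d, ℂ)) : Integrable (dom g) := by
  have h0 : Integrable (fun ξ : E d => ‖ξ‖ ^ 0 * ‖(𝓕 g : 𝓢(E d, ℂ)) ξ‖) :=
    (𝓕 g : 𝓢(E d, ℂ)).integrable_pow_mul volume 0
  have h1 : Integrable (fun ξ : E d => ‖ξ‖ ^ 1 * ‖(𝓕 g : 𝓢(E d, ℂ)) ξ‖) :=
    (𝓕 g : 𝓢(E d, ℂ)).integrable_pow_mul volume 1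
  have h2 := h0.add (h1.const_mul (2 * Real.pi))
  refine h2.congr (Filter.Eventually.of_forall fun ξ => ?_)
  simp only [Pi.add_apply, dom, ← SchwartzMap.fourier_coe]
  ring

/-- the integrand -/
noncomputable def ig (g : 𝓢(E d, ℂ)) (s : ℝ → E d → ℂ) (t : ℝ) (x ξ : E d) : ℂ :=
  ex x ξ * (s t ξ * 𝓕 (g : E d → ℂ) ξ)

lemma inv_eq (g : 𝓢(E d, ℂ)) (s : ℝ → E d → ℂ) (t : ℝ) (x : E d) :
    inv (fun ξ => s t ξ * 𝓕 (g : E d → ℂ) ξ) x = ∫ ξ, ig g s t x ξ := rfl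

lemma Sy.ig_meas {s : ℝ → E d → ℂ} (h : Sy s) (g : 𝓢(E d, ℂ)) (t : ℝ) (x : E d) :
    AEStronglyMeasurable (ig g s t x) := by
  have h1 : Measurable fun ξ => ex x ξ :=
    (cont_ex.comp (Continuous.prodMk_right x)).measurable
  exact (h1.mul ((h.meas t).mul (cont_G g).measurable)).aestronglyMeasurable

lemma Sy.ig_bd {s : ℝ → E d → ℂ} (h : Sy s) (g : 𝓢(E d, ℂ)) (t : ℝ) (x ξ : E d) :
    ‖ig g s t x ξ‖ ≤ dom g ξ := by
  rw [ig, norm_mul, norm_mul, norm_ex, one_mul]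
  exact mul_le_mul_of_nonneg_right (h.bd t ξ) (norm_nonneg _)

lemma Sy.ig_int {s : ℝ → E d → ℂ} (h : Sy s) (g : 𝓢(E d, ℂ)) (t : ℝ) (x : E d) :
    Integrable (ig g s t x) :=
  Integrable.mono' (int_dom g) (h.ig_meas g t x) (Filter.Eventually.of_forall (h.ig_bd g t x))

lemma Sy.cont_inv {s : ℝ → E d → ℂ} (h : Sy s) (g : 𝓢(E d, ℂ)) :
    Continuous fun p : ℝ × E d => inv (fun ξ => s p.1 ξ * 𝓕 (g : E d → ℂ) ξ) p.2 := by
  refine continuous_of_dominated (F := fun (p : ℝ × E d) ξ => ig g s p.1 p.2 ξ)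
    (fun p => h.ig_meas g p.1 p.2) (fun p => Filter.Eventually.of_forall (h.ig_bd g p.1 p.2))
    (int_dom g) (Filter.Eventually.of_forall fun ξ => ?_)
  unfold ig
  have h1 : Continuous fun p : ℝ × E d => ex p.2 ξ :=
    cont_ex.comp (continuous_snd.prodMk continuous_const)
  exact h1.mul (((h.cont ξ).comp continuous_fst).mul continuous_const)

lemma Sy.bd_inv {s : ℝ → E d → ℂ} (h : Sy s) (g : 𝓢(E d, ℂ)) (t : ℝ) (x : E d) :
    ‖inv (fun ξ => s t ξ * 𝓕 (g : E d → ℂ) ξ) x‖ ≤ ∫ ξ, dom g ξ := by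
  rw [inv_eq]
  exact norm_integral_le_of_norm_le (int_dom g) (Filter.Eventually.of_forall (h.ig_bd g t x))

/-- differentiation in `t` -/
lemma Sy.dt {s s' : ℝ → E d → ℂ} (h : Sy s) (h' : Sy s')
    (hd : ∀ t ξ, HasDerivAt (fun r => s r ξ) (s' t ξ) t) (g : 𝓢(E d, ℂ)) (t : ℝ) (x : E d) :
    HasDerivAt (fun r => inv (fun ξ => s r ξ * 𝓕 (g : E d → ℂ) ξ) x)
      (inv (fun ξ => s' t ξ * 𝓕 (g : E d → ℂ) ξ) x) t := by
  refine (hasDerivAt_integral_of_dominated_loc_of_deriv_le (F := fun r ξ => ig g s r x ξ)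
    (F' := fun r ξ => ig g s' r x ξ) (bound := dom g) Filter.univ_mem
    (Filter.Eventually.of_forall fun r => h.ig_meas g r x) (h.ig_int g t x) (h'.ig_meas g t x)
    (Filter.Eventually.of_forall fun ξ r _ => h'.ig_bd g r x ξ) (int_dom g)
    (Filter.Eventually.of_forall fun ξ r _ => ?_)).2
  exact ((hd r ξ).mul_const _).const_mul _

/-- differentiation in `x` -/
lemma Sy.dx {s s' : ℝ → E d → ℂ} (h : Sy s) (h' : Sy s') (j : Fin d)
    (hd : ∀ t ξ, s' t ξ = ((2 * Real.pi * ξ j : ℝ) : ℂ) * Complex.I * s t ξ)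
    (g : 𝓢(E d, ℂ)) (t : ℝ) (x : E d) :
    HasLineDerivAt ℝ (inv (fun ξ => s t ξ * 𝓕 (g : E d → ℂ) ξ))
      (inv (fun ξ => s' t ξ * 𝓕 (g : E d → ℂ) ξ) x) x (EuclideanSpace.single j (1 : ℝ)) := by
  unfold HasLineDerivAt
  have hx : x = x + (0 : ℝ) • EuclideanSpace.single j (1 : ℝ) := by simp
  have key := (hasDerivAt_integral_of_dominated_loc_of_deriv_le
    (F := fun (r : ℝ) ξ => ig g s t (x + r • EuclideanSpace.single j (1 : ℝ)) ξ)
    (F' := fun (r : ℝ) ξ => ig g s' t (x + r • EuclideanSpace.single j (1 : ℝ)) ξ)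
    (x₀ := (0 : ℝ)) (bound := dom g) Filter.univ_mem
    (Filter.Eventually.of_forall fun r => h.ig_meas g t _) (h.ig_int g t _) (h'.ig_meas g t _)
    (Filter.Eventually.of_forall fun ξ r _ => h'.ig_bd g t _ ξ) (int_dom g)
    (Filter.Eventually.of_forall fun ξ r _ => ?_)).2
  · rw [← hx] at key
    exact key
  · have h1 : ∀ r : ℝ, (⟪x + r • EuclideanSpace.single j (1 : ℝ), ξ⟫ : ℝ) =
        ⟪x, ξ⟫ + r * ξ j := by
      intro r
      rw [inner_add_left, inner_smul_left, EuclideanSpace.inner_single_left]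
      simp
    have h2 : HasDerivAt (fun r : ℝ => (2 * Real.pi * (⟪x, ξ⟫ + r * ξ j) : ℝ))
        (2 * Real.pi * ξ j) r := by
      have h3 : HasDerivAt (fun r : ℝ => (⟪x, ξ⟫ : ℝ) + r * ξ j) (1 * ξ j) r :=
        ((hasDerivAt_id r).mul_const (ξ j)).const_add _
      have h4 := h3.const_mul (2 * Real.pi)
      rwa [one_mul] at h4
    have h5 := ((h2.ofReal_comp).mul_const Complex.I).cexp
    have h6 := h5.mul_const (s t ξ * 𝓕 (g : E d → ℂ) ξ)
    have e1 : (fun r : ℝ => ig g s t (x + r • EuclideanSpace.single j (1 : ℝ)) ξ) =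
        fun r : ℝ => Complex.exp ((((2 * Real.pi * (⟪x, ξ⟫ + r * ξ j) : ℝ)) : ℂ) * Complex.I) *
          (s t ξ * 𝓕 (g : E d → ℂ) ξ) := by
      funext r
      rw [ig, ex, h1]
    have e2 : ig g s' t (x + r • EuclideanSpace.single j (1 : ℝ)) ξ =
        Complex.exp ((((2 * Real.pi * (⟪x, ξ⟫ + r * ξ j) : ℝ)) : ℂ) * Complex.I) *
          (((2 * Real.pi * ξ j : ℝ) : ℂ) * Complex.I) * (s t ξ * 𝓕 (g : E d → ℂ) ξ) := by
      rw [ig, ex, h1, hd]
      ring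
    rw [e1, e2]
    exact h6

/-! ### the symbols -/

lemma abs_coord (ξ : E d) (j : Fin d) : |ξ j| ≤ ‖ξ‖ := by
  have := PiLp.norm_apply_le ξ j
  rwa [Real.norm_eq_abs] at this

lemma meas_coord (j : Fin d) : Measurable fun ξ : E d => ξ j := by fun_prop

lemma sy_cs : Sy (cs : ℝ → E d → ℂ) where
  meas t := by
    unfold cs
    fun_prop
  cont ξ := by
    unfold cs
    fun_prop
  bd t ξ := by
    rw [cs, Complex.norm_real, Real.norm_eq_abs]
    have h1 := Real.abs_cos_le_one (2 * Real.pi * t * ‖ξ‖)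
    have h2 : 0 ≤ 2 * Real.pi * ‖ξ‖ := by positivity
    linarith

/-- `2πiξ_j sn` -/
noncomputable def m0 (j : Fin d) (t : ℝ) (ξ : E d) : ℂ :=
  ((2 * Real.pi * ξ j : ℝ) : ℂ) * Complex.I * sn t ξ

/-- `2πiξ_j cs` -/
noncomputable def m1 (j : Fin d) (t : ℝ) (ξ : E d) : ℂ :=
  ((2 * Real.pi * ξ j : ℝ) : ℂ) * Complex.I * cs t ξ

/-- `(2πiξ_j)² sn` -/
noncomputable def m2 (j : Fin d) (t : ℝ) (ξ : E d) : ℂ :=
  ((2 * Real.pi * ξ j : ℝ) : ℂ) * Complex.I * m0 j t ξ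

lemma norm_m0 (j : Fin d) (t : ℝ) (ξ : E d) : ‖m0 j t ξ‖ ≤ 1 := by
  rw [m0, sn, norm_mul, norm_mul, Complex.norm_I, mul_one, Complex.norm_real, Complex.norm_real,
    Real.norm_eq_abs, Real.norm_eq_abs, abs_div, abs_mul, abs_of_pos (by positivity :
      (0 : ℝ) < 2 * Real.pi)]
  rcases eq_or_ne ‖ξ‖ 0 with h0 | h0
  · have h1 : ξ j = 0 := by
      have := abs_coord ξ j
      rw [h0] at this
      exact abs_nonpos_iff.mp this
    rw [h1]
    simp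
  · have hpos : 0 < ‖ξ‖ := lt_of_le_of_ne (norm_nonneg _) (Ne.symm h0)
    have h2 : 0 < 2 * Real.pi * ‖ξ‖ := by positivity
    rw [abs_of_pos h2, ← mul_div_assoc, div_le_one h2]
    have h3 := abs_coord ξ j
    have h4 := Real.abs_sin_le_one (2 * Real.pi * t * ‖ξ‖)
    calc 2 * Real.pi * |ξ j| * |Real.sin (2 * Real.pi * t * ‖ξ‖)|
        ≤ 2 * Real.pi * |ξ j| * 1 := mul_le_mul_of_nonneg_left h4 (by positivity)
      _ ≤ 2 * Real.pi * ‖ξ‖ := by
          rw [mul_one]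
          exact mul_le_mul_of_nonneg_left h3 (by positivity)

lemma norm_fac (j : Fin d) (ξ : E d) :
    ‖((2 * Real.pi * ξ j : ℝ) : ℂ) * Complex.I‖ ≤ 2 * Real.pi * ‖ξ‖ := by
  rw [norm_mul, Complex.norm_I, mul_one, Complex.norm_real, Real.norm_eq_abs, abs_mul,
    abs_of_pos (by positivity : (0 : ℝ) < 2 * Real.pi)]
  exact mul_le_mul_of_nonneg_left (abs_coord ξ j) (by positivity)

lemma meas_fac (j : Fin d) : Measurable fun ξ : E d => ((2 * Real.pi * ξ j : ℝ) : ℂ) * Complex.I :=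
  (Complex.measurable_ofReal.comp ((meas_coord j).const_mul _)).mul_const _

lemma meas_sn (t : ℝ) : Measurable (sn t : E d → ℂ) := by
  unfold sn
  apply Complex.measurable_ofReal.comp
  apply Measurable.div
  · fun_prop
  · fun_prop

lemma sy_m0 (j : Fin d) : Sy (m0 j) where
  meas t := (meas_fac j).mul (meas_sn t)
  cont ξ := by
    unfold m0 sn
    fun_prop
  bd t ξ := by
    have h2 : 0 ≤ 2 * Real.pi * ‖ξ‖ := by positivity
    linarith [norm_m0 j t ξ]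

lemma sy_m1 (j : Fin d) : Sy (m1 j) where
  meas t := (meas_fac j).mul (sy_cs.meas t)
  cont ξ := by
    unfold m1 cs
    fun_prop
  bd t ξ := by
    rw [m1, norm_mul]
    have h1 : ‖cs t ξ‖ ≤ 1 := by
      rw [cs, Complex.norm_real, Real.norm_eq_abs]
      exact Real.abs_cos_le_one _
    calc ‖((2 * Real.pi * ξ j : ℝ) : ℂ) * Complex.I‖ * ‖cs t ξ‖
        ≤ (2 * Real.pi * ‖ξ‖) * 1 :=
          mul_le_mul (norm_fac j ξ) h1 (norm_nonneg _) (by positivity)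
      _ ≤ 1 + 2 * Real.pi * ‖ξ‖ := by linarith

lemma sy_m2 (j : Fin d) : Sy (m2 j) where
  meas t := (meas_fac j).mul ((sy_m0 j).meas t)
  cont ξ := by
    unfold m2
    exact continuous_const.mul ((sy_m0 j).cont ξ)
  bd t ξ := by
    rw [m2, norm_mul]
    calc ‖((2 * Real.pi * ξ j : ℝ) : ℂ) * Complex.I‖ * ‖m0 j t ξ‖
        ≤ (2 * Real.pi * ‖ξ‖) * 1 :=
          mul_le_mul (norm_fac j ξ) (norm_m0 j t ξ) (norm_nonneg _) (by positivity)
      _ ≤ 1 + 2 * Real.pi * ‖ξ‖ := by linarith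

/-- the derivative of `cs` -/
noncomputable def m3 (t : ℝ) (ξ : E d) : ℂ :=
  ((-(Real.sin (2 * Real.pi * t * ‖ξ‖) * (2 * Real.pi * ‖ξ‖)) : ℝ) : ℂ)

lemma sy_m3 : Sy (m3 : ℝ → E d → ℂ) where
  meas t := by
    unfold m3
    fun_prop
  cont ξ := by
    unfold m3
    fun_prop
  bd t ξ := by
    rw [m3, Complex.norm_real, Real.norm_eq_abs, abs_neg, abs_mul,
      abs_of_nonneg (by positivity : (0 : ℝ) ≤ 2 * Real.pi * ‖ξ‖)]
    have h1 := Real.abs_sin_le_one (2 * Real.pi * t * ‖ξ‖)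
    have h2 : 0 ≤ 2 * Real.pi * ‖ξ‖ := by positivity
    nlinarith

lemma hd_arg (c t : ℝ) : HasDerivAt (fun r : ℝ => 2 * Real.pi * r * c) (2 * Real.pi * c) t := by
  have h := ((hasDerivAt_id t).const_mul (2 * Real.pi)).mul_const c
  rwa [mul_one] at h

lemma hd_cs (t : ℝ) (ξ : E d) : HasDerivAt (fun r => cs r ξ) (m3 t ξ) t := by
  have h := ((hd_arg ‖ξ‖ t).cos).ofReal_comp
  unfold cs m3
  have e : -(Real.sin (2 * Real.pi * t * ‖ξ‖) * (2 * Real.pi * ‖ξ‖)) =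
    -Real.sin (2 * Real.pi * t * ‖ξ‖) * (2 * Real.pi * ‖ξ‖) := by ring
  rw [e]
  exact h

lemma hd_m0 (j : Fin d) (t : ℝ) (ξ : E d) : HasDerivAt (fun r => m0 j r ξ) (m1 j t ξ) t := by
  unfold m0 m1
  rcases eq_or_ne ‖ξ‖ 0 with h0 | h0
  · have h1 : ξ j = 0 := by
      have := abs_coord ξ j
      rw [h0] at this
      exact abs_nonpos_iff.mp this
    rw [h1]
    simp only [mul_zero, Complex.ofReal_zero, zero_mul]
    exact hasDerivAt_const _ _
  · have hne : 2 * Real.pi * ‖ξ‖ ≠ 0 := by positivity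
    have h := (((hd_arg ‖ξ‖ t).sin).div_const (2 * Real.pi * ‖ξ‖)).ofReal_comp
    rw [mul_div_assoc, div_self hne, mul_one] at h
    exact h.const_mul _

lemma sum_m2 (t : ℝ) (ξ : E d) : ∑ j, m2 j t ξ = m3 t ξ := by
  have h1 : ∀ j, m2 j t ξ = ((-((2 * Real.pi * ξ j) ^ 2 *
      (Real.sin (2 * Real.pi * t * ‖ξ‖) / (2 * Real.pi * ‖ξ‖))) : ℝ) : ℂ) := by
    intro j
    unfold m2 m0 sn
    push_cast
    ring_nf
    rw [Complex.I_sq]
    ring
  rw [Finset.sum_congr rfl fun j _ => h1 j, ← Complex.ofReal_sum, m3]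
  congr 1
  rw [Finset.sum_neg_distrib, ← Finset.sum_mul]
  have h2 : ∑ j, (2 * Real.pi * ξ j) ^ 2 = (2 * Real.pi * ‖ξ‖) ^ 2 := by
    rw [mul_pow, EuclideanSpace.norm_sq_eq]
    simp only [mul_pow, ← Finset.mul_sum, Real.norm_eq_abs, sq_abs]
  rw [h2]
  rcases eq_or_ne ‖ξ‖ 0 with h0 | h0
  · rw [h0]
    simp
  · have hne : 2 * Real.pi * ‖ξ‖ ≠ 0 := by positivity
    field_simp

theorem t_ena : S_ENA := by
  intro d g
  refine ⟨∫ ξ, dom g ξ, fun j t => inv fun ξ => m1 j t ξ * 𝓕 (g : E d → ℂ) ξ,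
    fun j t => inv fun ξ => m2 j t ξ * 𝓕 (g : E d → ℂ) ξ, ?_⟩
  refine
    { cφ := sy_cs.cont_inv g
      cA := fun j => (sy_m0 j).cont_inv g
      cDφ := fun j => (sy_m1 j).cont_inv g
      cDA := fun j => (sy_m2 j).cont_inv g
      bφ := fun t x => sy_cs.bd_inv g t x
      bA := fun j t x => (sy_m0 j).bd_inv g t x
      bDφ := fun j t x => (sy_m1 j).bd_inv g t x
      bDA := fun j t x => (sy_m2 j).bd_inv g t x
      φt := ?_
      At := fun j t x => (sy_m0 j).dt (sy_m1 j) (hd_m0 j) g t x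
      φx := fun j t x => sy_cs.dx (sy_m1 j) j (fun _ _ => rfl) g t x
      Ax := fun j t x => (sy_m0 j).dx (sy_m2 j) j (fun _ _ => rfl) g t x }
  intro t x
  have h1 := sy_cs.dt sy_m3 hd_cs g t x
  have h2 : inv (fun ξ => m3 t ξ * 𝓕 (g : E d → ℂ) ξ) x =
      ∑ j, inv (fun ξ => m2 j t ξ * 𝓕 (g : E d → ℂ) ξ) x := by
    simp only [inv_eq]
    rw [← integral_finsetSum _ fun j _ => (sy_m2 j).ig_int g t x]
    congr 1
    funext ξ
    simp only [ig]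
    rw [← Finset.mul_sum, ← Finset.sum_mul, sum_m2]
  rw [h2] at h1
  exact h1

end Pool.Agent.N362.LS
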